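import Pool.Agent.H28.Penrose.Planar5

set_option autoImplicit false

open Pool.Agent.H15.Penrose Pool.Agent.H15.Penrose.BinMatroid Pool.Agent.H28.Penrose

/-- There is a minimal non-alternating bridgeless binary matroid which is graphic and cographic
(that is, the cycle matroid of a planar graph), and which is isomorphic neither to `F^*`, nor to
the cycle matroid of the Petersen graph, nor to `K_5^*`, nor to the contraction of any edge of the
cycle matroid of the Petersen graph. -/
theorem Pool.Agent.Results.MP_5bb8bc_co.PlanarCounterexample.result :
    ∃ M : BinMatroid ℕ, M.IsBinary ∧ M.MinimalNonAlternating ∧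
      IsGraphic M ∧ IsGraphic M.dual ∧
      ¬ M.Iso fano.dual ∧
      ¬ M.Iso (cycleMatroid petersenGraph) ∧
      ¬ M.Iso (cycleMatroid (⊤ : SimpleGraph (Fin 5))).dual ∧
      ∀ e ∈ petersenGraph.edgeFinset,
        ¬ M.Iso ((cycleMatroid petersenGraph).contraction (petersenGraph.edgeFinset.erase e)) :=
  main
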